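import Mathlib

set_option autoImplicit false

/-!
Combinatorial part of the syndeticity theorem for coloured primes:
a symmetric set of integers with arbitrarily long holes is avoided, robustly, by all the differences of
an arbitrarily large set of multiples of `Q`; the grid argument.
-/

namespace Pool.Agent.H648Z.SY

open Finset

theorem thick_diff (D : Set ℤ) (hsym : ∀ x ∈ D, -x ∈ D)
    (hth : ∀ L : ℕ, ∃ n : ℤ, ∀ x ∈ D, ¬ (n ≤ x ∧ x ≤ n + L)) (Q R : ℕ) (hQ : 0 < Q) (M : ℕ) :
    ∃ A : ℕ → ℤ, (∀ s, (Q : ℤ) ∣ A s) ∧
      ∀ s < M, ∀ t < M, s ≠ t → ∀ v : ℤ, |v| ≤ R → A s - A t + v ∉ D := by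
  induction M with
  | zero => exact ⟨fun _ => 0, fun _ => dvd_zero _, fun s hs => absurd hs (Nat.not_lt_zero _)⟩
  | succ M ih =>
    obtain ⟨A, hA1, hA2⟩ := ih
    set B : ℕ := ∑ s ∈ range M, (A s).natAbs with hB
    have hBle : ∀ t < M, |A t| ≤ B := by
      intro t ht
      have : (A t).natAbs ≤ B :=
        single_le_sum (f := fun s => (A s).natAbs) (fun _ _ => Nat.zero_le _) (mem_range.2 ht)
      rw [← Int.natCast_natAbs]
      exact_mod_cast this
    obtain ⟨n, hn⟩ := hth (2 * (R + B) + Q)
    set y : ℤ := n + R + B with hy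
    set x : ℤ := Q * (y / Q + 1) with hx
    have hQz : (0 : ℤ) < Q := by exact_mod_cast hQ
    have hx1 : y ≤ x := by
      have h1 := Int.mul_ediv_add_emod y Q
      have h2 := Int.emod_lt_of_pos y hQz
      rw [hx, mul_add, mul_one]
      linarith
    have hx2 : x ≤ y + Q := by
      have h1 := Int.mul_ediv_add_emod y Q
      have h2 := Int.emod_nonneg y hQz.ne'
      rw [hx, mul_add, mul_one]
      linarith
    have key : ∀ t < M, ∀ v : ℤ, |v| ≤ R → x - A t + v ∉ D := by
      intro t ht v hv hD
      have h1 := abs_le.1 (hBle t ht)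
      have h2 := abs_le.1 hv
      refine hn _ hD ⟨?_, ?_⟩
      · linarith [h1.1, h1.2, h2.1, h2.2]
      · push_cast
        linarith [h1.1, h1.2, h2.1, h2.2]
    refine ⟨Function.update A M x, ?_, ?_⟩
    · intro s
      by_cases hs : s = M
      · subst hs
        rw [Function.update_self]
        exact Dvd.intro _ rfl
      · rw [Function.update_of_ne hs]
        exact hA1 s
    · intro s hs t ht hst v hv
      by_cases h1 : s = M
      · have h2 : t ≠ M := fun h => hst (h1.trans h.symm)
        subst h1
        rw [Function.update_self, Function.update_of_ne h2]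
        exact key t (by omega) v hv
      · by_cases h2 : t = M
        · subst h2
          rw [Function.update_self, Function.update_of_ne h1]
          intro hD
          have h3 := hsym _ hD
          refine key s (by omega) (-v) (by rwa [abs_neg]) ?_
          convert h3 using 1
          ring
        · rw [Function.update_of_ne h1, Function.update_of_ne h2]
          exact hA2 s (by omega) t (by omega) hst v hv

/-- a family of `N` multiples of `N !` is admissible -/
theorem adm {ι : Type} [Fintype ι] (b : ι → ℤ)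
    (hb : ∀ x, (((Fintype.card ι).factorial : ℕ) : ℤ) ∣ b x) (p : ℕ) (hp : p.Prime) :
    ∃ n : ℤ, ∀ x, ¬ ((p : ℤ) ∣ n + b x) := by
  classical
  by_cases h : p ≤ Fintype.card ι
  · refine ⟨1, fun x hx => ?_⟩
    have h1 : (p : ℤ) ∣ b x :=
      (Int.natCast_dvd_natCast.2 ((Nat.Prime.dvd_factorial hp).2 h)).trans (hb x)
    have h2 : (p : ℤ) ∣ 1 := by
      have := dvd_sub hx h1
      simpa using this
    have h3 : p ∣ 1 := by exact_mod_cast h2
    exact hp.one_lt.ne' (Nat.dvd_one.1 h3)
  · push Not at h
    have : NeZero p := ⟨hp.ne_zero⟩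
    have hlt : (univ.image (fun x : ι => ((-b x : ℤ) : ZMod p))).card < (univ : Finset (ZMod p)).card := by
      refine lt_of_le_of_lt card_image_le ?_
      rw [card_univ, card_univ, ZMod.card]
      exact h
    obtain ⟨r, -, hr⟩ := exists_mem_notMem_of_card_lt_card hlt
    refine ⟨(r.val : ℤ), fun x hx => hr ?_⟩
    rw [mem_image]
    refine ⟨x, mem_univ _, ?_⟩
    have h1 : (((r.val : ℤ) + b x : ℤ) : ZMod p) = 0 := (ZMod.intCast_zmod_eq_zero_iff_dvd _ _).2 hx
    push_cast at h1 ⊢
    rw [ZMod.natCast_zmod_val] at h1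
    linear_combination -h1

/-- the grid count: if no two points of `S` of the same colour `i` differ only in coordinate `i` then
`|S| M ≤ k M ^ k` -/
theorem grid_count {k M : ℕ} (S : Finset (Fin k → Fin M)) (col : (Fin k → Fin M) → Fin k)
    (h : ∀ f ∈ S, ∀ g ∈ S, col f = col g → (∀ i, i ≠ col f → f i = g i) → f = g) :
    S.card * M ≤ k * M ^ k := by
  classical
  have h1 : (S ×ˢ (univ : Finset (Fin M))).card ≤ (univ : Finset (Fin k × (Fin k → Fin M))).card := by
    refine card_le_card_of_injOn (fun x => (col x.1, Function.update x.1 (col x.1) x.2))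
      (fun _ _ => by simp) ?_
    rintro ⟨f, m⟩ hf ⟨g, m'⟩ hg hfg
    simp only [coe_product, coe_univ, Set.mem_prod, mem_coe, Set.mem_univ, and_true] at hf hg
    simp only [Prod.mk.injEq] at hfg
    obtain ⟨hc, hu⟩ := hfg
    have h2 : f = g := by
      refine h f hf g hg hc fun i hi => ?_
      have h3 := congrFun hu i
      rw [Function.update_of_ne hi, Function.update_of_ne (hc ▸ hi)] at h3
      exact h3
    subst h2
    have h3 := congrFun hu (col f)
    rw [Function.update_self, Function.update_self] at h3
    rw [h3]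
  simpa [card_product, card_univ, Fintype.card_prod, Fintype.card_fin, Fintype.card_pi] using h1

end Pool.Agent.H648Z.SY
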