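import Mathlib
import Pool.Agent.H648Z.SY.Grid

set_option autoImplicit false

/-!
From the coloured Maynard-Tao theorem (a quarter of the groups of an admissible family contain a prime)
to: in every finite colouring of the primes some colour class has a syndetic difference set.
-/

namespace Pool.Agent.H648Z.SY

open Finset

/-- the statement of the coloured Maynard-Tao theorem -/
def Quarter : Prop := ∀ T : ℕ, ∃ K : ℕ, 1 ≤ K ∧ ∀ (a b : Fin T → Fin K → ℤ), (∀ g i, 0 < a g i) →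
    Function.Injective (fun x : Fin T × Fin K => (a x.1 x.2, b x.1 x.2)) →
    (∀ p : ℕ, p.Prime → ∃ n : ℤ, ∀ g i, ¬ ((p : ℤ) ∣ a g i * n + b g i)) →
    ∃ (S : Finset (Fin T)) (c : Fin T → Fin K), T ≤ 4 * S.card ∧
      {n : ℕ | ∀ g ∈ S, 0 < a g (c g) * (n : ℤ) + b g (c g) ∧
        Prime (a g (c g) * (n : ℤ) + b g (c g))}.Infinite

theorem main (hq : Quarter) (k : ℕ) (c : ℕ → Fin k) : ∃ i : Fin k, ∃ L : ℕ, ∀ n : ℤ,
      ∃ p q : ℕ, p.Prime ∧ q.Prime ∧ c p = i ∧ c q = i ∧
        n ≤ (p : ℤ) - (q : ℤ) ∧ (p : ℤ) - (q : ℤ) ≤ n + (L : ℤ) := by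
  classical
  by_contra hcon
  push Not at hcon
  set D : Fin k → Set ℤ := fun i =>
    {x | ∃ p q : ℕ, p.Prime ∧ q.Prime ∧ c p = i ∧ c q = i ∧ x = (p : ℤ) - (q : ℤ)} with hD
  have hsym : ∀ i, ∀ x ∈ D i, -x ∈ D i := by
    rintro i x ⟨p, q, hp, hq, h1, h2, rfl⟩
    exact ⟨q, p, hq, hp, h2, h1, by ring⟩
  have hth : ∀ i, ∀ L : ℕ, ∃ n : ℤ, ∀ x ∈ D i, ¬ (n ≤ x ∧ x ≤ n + L) := by
    intro i L
    obtain ⟨n, hn⟩ := hcon i L
    refine ⟨n, ?_⟩
    rintro x ⟨p, q, hp, hq, h1, h2, rfl⟩ ⟨h3, h4⟩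
    exact absurd h4 (not_le.2 (hn p q hp hq h1 h2 h3))
  set M : ℕ := 4 * k + 1 with hM
  set T : ℕ := M ^ k with hT
  have hTpos : 0 < T := by positivity
  obtain ⟨K, hK, hq⟩ := hq T
  set N : ℕ := T * K with hN
  have hNpos : 0 < N := by positivity
  set W : ℕ := N.factorial with hW
  have hWpos : 0 < W := Nat.factorial_pos _
  have hA := fun i => thick_diff (D i) (hsym i) (hth i) (W * N) (W * N) (by positivity) M
  choose A hA1 hA2 using hA
  set e : Fin T ≃ (Fin k → Fin M) := finFunctionFinEquiv.symm with he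
  set idx : Fin T × Fin K ≃ Fin (T * K) := finProdFinEquiv with hidx
  set b : Fin T → Fin K → ℤ := fun g j => ∑ i, A i (e g i) + W * ((idx (g, j) : ℕ) : ℤ) with hb
  have hWz : (0 : ℤ) < W := by exact_mod_cast hWpos
  have hlt : ∀ x, ((idx x : ℕ) : ℤ) < N := fun x => by exact_mod_cast (idx x).2
  have hge : ∀ x, (0 : ℤ) ≤ ((idx x : ℕ) : ℤ) := fun x => Int.natCast_nonneg _
  obtain ⟨S, ch, hS, hinf⟩ := hq (fun _ _ => 1) b (fun _ _ => one_pos)
    (by
      intro x y hxy
      simp only [Prod.mk.injEq, true_and, hb] at hxy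
      have h1 : ((W * N : ℕ) : ℤ) ∣ ∑ i, A i (e x.1 i) - ∑ i, A i (e y.1 i) :=
        dvd_sub (dvd_sum fun i _ => hA1 i _) (dvd_sum fun i _ => hA1 i _)
      have h2 : ∑ i, A i (e x.1 i) - ∑ i, A i (e y.1 i) =
          W * (((idx y : ℕ) : ℤ) - ((idx x : ℕ) : ℤ)) := by
        linear_combination hxy
      rw [h2] at h1
      push_cast at h1
      have h3 : (N : ℤ) ∣ ((idx y : ℕ) : ℤ) - ((idx x : ℕ) : ℤ) :=
        (mul_dvd_mul_iff_left hWz.ne').1 h1
      have h4 : ((idx y : ℕ) : ℤ) - ((idx x : ℕ) : ℤ) = 0 := by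
        refine Int.eq_zero_of_abs_lt_dvd h3 ?_
        rw [abs_lt]
        constructor <;> linarith [hlt x, hlt y, hge x, hge y]
      have h5 : (idx x : ℕ) = (idx y : ℕ) := by omega
      exact idx.injective (Fin.ext h5))
    (by
      intro p hp
      obtain ⟨n, hn⟩ := adm (ι := Fin T × Fin K) (fun x => b x.1 x.2) (by
        intro x
        have hc : Fintype.card (Fin T × Fin K) = N := by simp [hN]
        rw [hc]
        refine dvd_add (dvd_sum fun i _ => ?_) (Dvd.intro _ rfl)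
        refine dvd_trans ?_ (hA1 i _)
        push_cast
        exact Dvd.intro _ rfl) p hp
      refine ⟨n, fun g i => ?_⟩
      rw [one_mul]
      exact hn (g, i))
  obtain ⟨n, hn⟩ := hinf.nonempty
  simp only [Set.mem_setOf_eq, one_mul] at hn
  set P : Fin T → ℕ := fun g => ((n : ℤ) + b g (ch g)).toNat with hP
  have hPz : ∀ g ∈ S, (P g : ℤ) = n + b g (ch g) := fun g hg => Int.toNat_of_nonneg (hn g hg).1.le
  have hPp : ∀ g ∈ S, (P g).Prime := by
    intro g hg
    have h1 := (hn g hg).2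
    rw [← hPz g hg] at h1
    exact Nat.prime_iff_prime_int.2 h1
  have hcount := grid_count (S.map e.toEmbedding) (fun f => c (P (e.symm f))) (by
    intro f hf f' hf' hcol hoff
    obtain ⟨g, hg, rfl⟩ := mem_map.1 hf
    obtain ⟨g', hg', rfl⟩ := mem_map.1 hf'
    simp only [Equiv.coe_toEmbedding, Equiv.symm_apply_apply] at hcol hoff ⊢
    set i := c (P g) with hi
    by_contra hne
    have hne' : e g i ≠ e g' i := by
      intro h
      apply hne
      funext j
      by_cases hj : j = i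
      · rw [hj]; exact h
      · exact hoff j hj
    have hsum : ∑ j, A j (e g j) - ∑ j, A j (e g' j) = A i (e g i) - A i (e g' i) := by
      rw [← sum_sub_distrib]
      refine sum_eq_single i (fun j _ hj => ?_) (fun h => absurd (mem_univ i) h)
      rw [hoff j hj, sub_self]
    refine hA2 i (e g i) (e g i).2 (e g' i) (e g' i).2 (fun h => hne' (Fin.ext h))
      (W * (((idx (g, ch g) : ℕ) : ℤ) - ((idx (g', ch g') : ℕ) : ℤ))) ?_
      ⟨P g, P g', hPp g hg, hPp g' hg', rfl, hcol.symm, ?_⟩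
    · rw [abs_mul, abs_of_pos hWz]
      push_cast
      refine mul_le_mul_of_nonneg_left ?_ hWz.le
      rw [abs_le]
      constructor <;> linarith [hlt (g, ch g), hlt (g', ch g'), hge (g, ch g), hge (g', ch g')]
    · rw [hPz g hg, hPz g' hg']
      simp only [hb]
      linear_combination -hsum)
  rw [card_map] at hcount
  have h1 : T * M ≤ 4 * (k * T) := by
    calc T * M ≤ 4 * S.card * M := Nat.mul_le_mul_right _ hS
      _ = 4 * (S.card * M) := by ring
      _ ≤ 4 * (k * T) := Nat.mul_le_mul_left _ hcount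
  rw [hM] at h1
  nlinarith

end Pool.Agent.H648Z.SY
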